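import Mathlib

/-!
# The biased sequence game is won by the first player

The first player plays, whatever the second player does, the letters of a fixed square-free word
`u` over `{0, 1, 2}` in which each three consecutive letters contain a `2`. A square of even
half-length in the play would give a square in `u`; in a square of odd half-length at least `3` the
letters of the first player would all be `0` or `1`. The word `u` is built from the Fibonacci word.
-/

namespace Pool.Agent.Results.MP_fa571f_co.FirstPlayerWins

/-- The symbols of the infinite play are `s 0, s 1, s 2, ...`; the first player makes the moves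
with even number, the second player the moves with odd number and never uses the symbol `2`. -/
def Legal (s : ℕ → Fin 3) : Prop := ∀ n, s (2 * n + 1) ≠ 2

/-- The first player follows the strategy `σ`, which tells him his move as a function of the list
of all previous moves. -/
def Follows (σ : List (Fin 3) → Fin 3) (s : ℕ → Fin 3) : Prop :=
  ∀ n, s (2 * n) = σ ((List.range (2 * n)).map s)

/-- The sequence contains a square of a block of `r ≥ 2` symbols. -/
def HasSquare (s : ℕ → Fin 3) : Prop :=
  ∃ k r, 2 ≤ r ∧ ∀ j < r, s (k + j) = s (k + r + j)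

/-! ### Counting the letters `a` of the Fibonacci word -/

section fib

/-- `1 / φ`. -/
noncomputable def th : ℝ := Real.goldenRatio - 1

theorem th_pos : 0 < th := by
  have := Real.one_lt_goldenRatio
  unfold th
  linarith

theorem th_lt : th < 1 := by
  have := Real.goldenRatio_lt_two
  unfold th
  linarith

theorem th_sq : th * th = 1 - th := by
  have h := Real.goldenRatio_sq
  unfold th
  nlinarith

theorem th_irr (n : ℕ) (c : ℕ) : ((n : ℝ) + 1) * th ≠ c := by
  intro h
  have h1 : Irrational Real.goldenRatio := Real.goldenRatio_irrational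
  apply h1
  refine ⟨(c : ℚ) / (n + 1) + 1, ?_⟩
  have h2 : (n : ℝ) + 1 ≠ 0 := by positivity
  unfold th at h
  push_cast
  rw [← h]
  field_simp
  ring

/-- The number of letters `a` among the first `n` letters of the Fibonacci word. -/
noncomputable def A (n : ℕ) : ℕ := ⌊((n : ℝ) + 1) * th⌋₊

theorem A_le (n : ℕ) : (A n : ℝ) < ((n : ℝ) + 1) * th := by
  have h0 : 0 ≤ ((n : ℝ) + 1) * th := mul_nonneg (by positivity) th_pos.le
  exact lt_of_le_of_ne (Nat.floor_le h0) (fun h => th_irr n _ h.symm)

theorem lt_A (n : ℕ) : ((n : ℝ) + 1) * th < A n + 1 := Nat.lt_floor_add_one _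

theorem A_eq {n c : ℕ} (h1 : (c : ℝ) ≤ ((n : ℝ) + 1) * th) (h2 : ((n : ℝ) + 1) * th < c + 1) :
    A n = c := by
  unfold A
  rw [Nat.floor_eq_iff (mul_nonneg (by positivity) th_pos.le)]
  exact ⟨h1, h2⟩

theorem A_zero : A 0 = 0 := by
  apply A_eq
  · simpa using th_pos.le
  · simpa using th_lt

theorem A_step (n : ℕ) : A (n + 1) = A n ∨ A (n + 1) = A n + 1 := by
  have h1 := A_le n
  have h2 := lt_A n
  have h3 := A_le (n + 1)
  have h4 := lt_A (n + 1)
  push_cast at h3 h4
  have h5 := th_pos
  have h6 := th_lt
  have h7 : A n ≤ A (n + 1) := by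
    have : (A n : ℝ) < (A (n + 1) : ℝ) + 1 := by nlinarith
    exact_mod_cast Nat.lt_succ_iff.1 (by exact_mod_cast this)
  have h8 : A (n + 1) < A n + 2 := by
    have : (A (n + 1) : ℝ) < (A n : ℝ) + 2 := by nlinarith
    exact_mod_cast this
  omega

theorem A_P (n : ℕ) : A (n + A n) = n := by
  have h1 := A_le n
  have h2 := lt_A n
  have h5 := th_pos
  have h6 := th_lt
  have h7 := th_sq
  have key : ((n : ℝ) + A n + 1) * th = (n + 1) - (((n : ℝ) + 1) * th - A n) * th := by
    linear_combination ((n : ℝ) + 1) * th_sq
  apply A_eq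
  · push_cast
    rw [key]
    nlinarith
  · push_cast
    rw [key]
    nlinarith

theorem A_P1 (n : ℕ) : A (n + A n + 1) = n + 1 := by
  have h1 := A_le n
  have h2 := lt_A n
  have h5 := th_pos
  have h6 := th_lt
  have h7 := th_sq
  have key : ((n : ℝ) + A n + 1 + 1) * th = (n + 1) + (1 - (((n : ℝ) + 1) * th - A n)) * th := by
    linear_combination ((n : ℝ) + 1) * th_sq
  apply A_eq
  · push_cast
    rw [key]
    nlinarith
  · push_cast
    rw [key]
    nlinarith

theorem A_mono : Monotone A := monotone_nat_of_le_succ fun n => by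
  have := A_step n
  omega

/-- The position of the `k`-th letter `a`. -/
noncomputable def P (k : ℕ) : ℕ := k + A k

theorem P_eq {n c : ℕ} (h1 : A n = c) (h2 : A (n + 1) = c + 1) : n = P c := by
  have h3 : A (P c) = c := A_P c
  have h4 : A (P c + 1) = c + 1 := A_P1 c
  rcases lt_trichotomy n (P c) with h | h | h
  · have := A_mono (show n + 1 ≤ P c from h)
    omega
  · exact h
  · have := A_mono (show P c + 1 ≤ n from h)
    omega

theorem no_bb (n : ℕ) : A n < A (n + 2) := by
  by_contra hc
  have h0 := A_mono (show n ≤ n + 2 by omega)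
  have h1 : A (n + 2) = A n := by omega
  have h2 : n + 2 ≤ P (A n) := by
    by_contra h
    have := A_mono (show P (A n) + 1 ≤ n + 2 by omega)
    have h3 : A (P (A n) + 1) = A n + 1 := A_P1 (A n)
    omega
  have h3 : 1 ≤ A n := by
    by_contra h
    have h4 : A n = 0 := by omega
    rw [h4] at h2
    unfold P at h2
    rw [A_zero] at h2
    omega
  obtain ⟨c, hc'⟩ : ∃ c, A n = c + 1 := ⟨A n - 1, by omega⟩
  rw [hc'] at h2
  have h4 : P c + 1 ≤ n := by
    by_contra h
    have := A_mono (show n ≤ P c by omega)
    have h5 : A (P c) = c := A_P c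
    omega
  unfold P at h2 h4
  have := A_step c
  omega

theorem no_aaa (n : ℕ) : A (n + 3) ≤ A n + 2 := by
  by_contra hc
  have s1 := A_step n
  have s2 : A (n + 2) = A (n + 1) ∨ A (n + 2) = A (n + 1) + 1 := A_step (n + 1)
  have s3 : A (n + 3) = A (n + 2) ∨ A (n + 3) = A (n + 2) + 1 := A_step (n + 2)
  have e1 := P_eq (n := n) (c := A n) rfl (by omega)
  have e2 := P_eq (n := n + 1) (c := A n + 1) (by omega)
    (by rw [show n + 1 + 1 = n + 2 by omega]; omega)
  have e3 := P_eq (n := n + 2) (c := A n + 2) (by omega)
    (by rw [show n + 2 + 1 = n + 3 by omega]; omega)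
  have := no_bb (A n)
  unfold P at e1 e2 e3
  omega

/-- The Fibonacci word; `true` is the letter `a`. -/
noncomputable def f (n : ℕ) : Bool := decide (A (n + 1) = A n + 1)

theorem f_iff (n : ℕ) : f n = true ↔ A (n + 1) = A n + 1 := by simp [f]

theorem f_false_iff (n : ℕ) : f n = false ↔ A (n + 1) = A n := by
  have := A_step n
  simp [f]
  omega

/-- Runs of equal values of `A (j + p) - A j` become shorter under desubstitution. -/
theorem descent {p p' i m : ℕ} (h : ∀ j < m, A (i + j + p) = A (i + j) + p') {k : ℕ}
    (h1 : A i ≤ k) (h2 : k < A (i + (m - 1))) : A (k + p') + p' = A k + p := by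
  have h3 : A (P k) = k := A_P k
  have h4 : A (P k + 1) = k + 1 := A_P1 k
  have h5 : i ≤ P k := by
    by_contra hc
    have := A_mono (show P k + 1 ≤ i by omega)
    omega
  have h6 : P k < i + (m - 1) := by
    by_contra hc
    have := A_mono (show i + (m - 1) ≤ P k by omega)
    omega
  have h7 := h (P k - i) (by omega)
  have h8 := h (P k - i + 1) (by omega)
  rw [show i + (P k - i) = P k by omega] at h7
  rw [show i + (P k - i + 1) = P k + 1 by omega] at h8
  have h9 := P_eq (n := P k + p) (c := k + p') (by omega)
    (by rw [show P k + p + 1 = P k + 1 + p by omega]; omega)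
  unfold P at h9
  omega

end fib

/-! ### Windows in concatenations -/

section windows

/-- The parity of a number. -/
def par (n : ℕ) : Bool := decide (n % 2 = 1)

theorem par_add (a b : ℕ) : par (a + b) = (par a ^^ par b) := by
  unfold par
  rcases Nat.mod_two_eq_zero_or_one a with h | h <;>
    rcases Nat.mod_two_eq_zero_or_one b with h' | h' <;> simp [Nat.add_mod, h, h']

theorem par_succ (a : ℕ) : par (a + 1) = !par a := by
  rw [par_add]
  simp [par]

variable {α : Type}

/-- The window of length `L` starting at `n`. -/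
def win (U : ℕ → α) : ℕ → ℕ → List α
  | _, 0 => []
  | n, L + 1 => U n :: win U (n + 1) L

theorem win_length (U : ℕ → α) (n L : ℕ) : (win U n L).length = L := by
  induction L generalizing n with
  | zero => rfl
  | succ L ih => simp [win, ih]

theorem win_add (U : ℕ → α) (n a b : ℕ) : win U n (a + b) = win U n a ++ win U (n + a) b := by
  induction a generalizing n with
  | zero => simp [win]
  | succ a ih =>
    rw [show a + 1 + b = (a + b) + 1 by omega, win, win, ih,
      show n + 1 + a = n + (a + 1) by omega]
    rfl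

theorem win_drop (U : ℕ → α) (n a b : ℕ) : (win U n (a + b)).drop a = win U (n + a) b := by
  rw [win_add, List.drop_left' (win_length U n a)]

theorem win_take (U : ℕ → α) (n a b : ℕ) : (win U n (a + b)).take a = win U n a := by
  rw [win_add, List.take_left' (win_length U n a)]

theorem win_congr (U : ℕ → α) (n n' L : ℕ) (h : ∀ j < L, U (n + j) = U (n' + j)) :
    win U n L = win U n' L := by
  induction L generalizing n n' with
  | zero => rfl
  | succ L ih =>
    rw [win, win]
    congr 1
    · exact h 0 (by omega)
    · apply ih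
      intro j hj
      have := h (j + 1) (by omega)
      rwa [show n + (j + 1) = n + 1 + j by omega, show n' + (j + 1) = n' + 1 + j by omega] at this

theorem win_map {β : Type} (g : α → β) (U : ℕ → α) (n L : ℕ) :
    (win U n L).map g = win (fun t => g (U t)) n L := by
  induction L generalizing n with
  | zero => rfl
  | succ L ih => simp [win, ih]

theorem win_getElem (U : ℕ → α) (n L j : ℕ) (h : j < L) : (win U n L)[j]? = some (U (n + j)) := by
  induction L generalizing n j with
  | zero => omega
  | succ L ih =>
    rw [win]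
    cases j with
    | zero => simp
    | succ j =>
      rw [List.getElem?_cons_succ, ih (n + 1) j (by omega)]
      congr 2
      omega

variable (blk : Bool → Bool → Bool → List α)

/-- The image of the block of a letter `x` of the Fibonacci word with `t = par (A k)`,
`e = par k` (where `k` is the number of the letter) after `m` substitutions. -/
def O : ℕ → Bool → Bool → Bool → List α
  | 0, x, t, e => blk x t e
  | m + 1, x, t, e => O m true e (e ^^ t) ++ if x then O m false (!e) (!(e ^^ t)) else []

/-- The block of the letter number `k`. -/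
noncomputable def OO (m k : ℕ) : List α := O blk m (f k) (par (A k)) (par k)

theorem OO_succ (m k : ℕ) :
    OO blk (m + 1) k = OO blk m (P k) ++ if f k then OO blk m (P k + 1) else [] := by
  have h1 : A (P k) = k := A_P k
  have h2 : A (P k + 1) = k + 1 := A_P1 k
  have h3 : f (P k) = true := by rw [f_iff, h1, h2]
  have h4 : par (P k) = (par k ^^ par (A k)) := par_add _ _
  unfold OO
  rw [O, h1, h3, h4]
  by_cases hf : f k = true
  · have h5 : f (P k + 1) = false := by
      rw [f_false_iff, h2]
      have h6 : A (k + 1 + A (k + 1)) = k + 1 := A_P (k + 1)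
      rw [(f_iff k).1 hf] at h6
      rw [show P k + 1 + 1 = k + 1 + (A k + 1) by unfold P; omega]
      exact h6
    rw [if_pos hf, if_pos hf, h5, h2, par_succ, par_succ, h4]
  · rw [if_neg hf, if_neg hf]

variable {blk} (hblk : ∀ x t e, blk x t e ≠ []) {U : ℕ → α} {Q : ℕ → ℕ} (hQ0 : Q 0 = 0)
  (hQ : ∀ i, Q (i + 1) = Q i + (OO blk 0 i).length)
  (hU : ∀ i, win U (Q i) (OO blk 0 i).length = OO blk 0 i)

include hblk in
theorem O_pos (m : ℕ) : ∀ x t e, 0 < (O blk m x t e).length := by
  induction m with
  | zero =>
    intro x t e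
    exact List.length_pos_iff.2 (hblk x t e)
  | succ m ih =>
    intro x t e
    rw [O, List.length_append]
    have := ih true e (e ^^ t)
    omega

include hQ hU in
theorem level (m : ℕ) : ∀ k, Q (P^[m] (k + 1)) = Q (P^[m] k) + (OO blk m k).length ∧
    win U (Q (P^[m] k)) (OO blk m k).length = OO blk m k := by
  induction m with
  | zero =>
    intro k
    exact ⟨hQ k, hU k⟩
  | succ m ih =>
    intro k
    rw [Function.iterate_succ_apply, Function.iterate_succ_apply, OO_succ]
    obtain ⟨h1, h2⟩ := ih (P k)
    by_cases hf : f k = true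
    · obtain ⟨h3, h4⟩ := ih (P k + 1)
      have hP : P (k + 1) = P k + 1 + 1 := by
        have := (f_iff k).1 hf
        unfold P
        omega
      rw [if_pos hf, hP, h3, h1, List.length_append, win_add, h2, ← h1, h4]
      exact ⟨by omega, rfl⟩
    · have hP : P (k + 1) = P k + 1 := by
        have := (f_false_iff k).1 (by simpa using hf)
        unfold P
        omega
      rw [if_neg hf, List.append_nil, hP]
      exact ⟨h1, h2⟩

include hblk hQ0 hQ hU in
theorem cover (m n : ℕ) : ∃ k, Q (P^[m] k) ≤ n ∧ n < Q (P^[m] (k + 1)) := by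
  have h0 : Q (P^[m] 0) = 0 := by
    have : P^[m] 0 = 0 := by
      apply Function.iterate_fixed
      unfold P
      rw [A_zero]
    rw [this, hQ0]
  have hlt : ∀ k, Q (P^[m] k) < Q (P^[m] (k + 1)) := by
    intro k
    have h1 := (level hQ hU m k).1
    have h2 : 0 < (OO blk m k).length := O_pos hblk m _ _ _
    omega
  induction n with
  | zero => exact ⟨0, by omega, by have := hlt 0; omega⟩
  | succ n ih =>
    obtain ⟨k, hk1, hk2⟩ := ih
    by_cases h : n + 1 < Q (P^[m] (k + 1))
    · exact ⟨k, by omega, h⟩
    · exact ⟨k + 1, by omega, by have := hlt (k + 1); omega⟩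

/-- The first `c` suffixes of a list all satisfy `good`. -/
def sufAll (good : List α → Bool) : ℕ → List α → Bool
  | 0, _ => true
  | c + 1, l => good l && sufAll good c l.tail

theorem sufAll_drop (good : List α → Bool) : ∀ (c : ℕ) (l : List α), sufAll good c l = true →
    ∀ o < c, good (l.drop o) = true := by
  intro c
  induction c with
  | zero => intro l _ o ho; omega
  | succ c ih =>
    intro l h o ho
    rw [sufAll, Bool.and_eq_true] at h
    cases o with
    | zero => simpa using h.1
    | succ o =>
      have := ih l.tail h.2 o (by omega)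
      rwa [List.drop_tail] at this

/-- The check of all windows starting in the first of three consecutive blocks. -/
def chk (blk : Bool → Bool → Bool → List α) (good : List α → Bool) (m : ℕ)
    (x y z t e : Bool) : Bool :=
  !(x || y) || !(y || z) || (x && y && z) ||
    sufAll good (O blk m x t e).length
      (O blk m x t e ++ (O blk m y (t ^^ x) (!e) ++ O blk m z ((t ^^ x) ^^ y) e))

include hblk hQ0 hQ hU in
theorem window (good : List α → Bool) (m : ℕ)
    (hc : ∀ x y z t e, chk blk good m x y z t e = true) (n : ℕ) :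
    ∃ L, good (win U n L) = true := by
  obtain ⟨k, hk1, hk2⟩ := cover hblk hQ0 hQ hU m n
  obtain ⟨a1, a2⟩ := level hQ hU m k
  obtain ⟨b1, b2⟩ := level hQ hU m (k + 1)
  obtain ⟨c1, c2⟩ := level hQ hU m (k + 1 + 1)
  set la := (OO blk m k).length with hla
  set lb := (OO blk m (k + 1)).length with hlb
  set lc := (OO blk m (k + 1 + 1)).length with hlc
  have hstep : ∀ j, par (A (j + 1)) = (par (A j) ^^ f j) := by
    intro j
    by_cases hf : f j = true
    · rw [(f_iff j).1 hf, par_succ, hf]
      simp
    · have hf' : f j = false := by simpa using hf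
      rw [(f_false_iff j).1 hf', hf']
      simp
  have h := hc (f k) (f (k + 1)) (f (k + 1 + 1)) (par (A k)) (par k)
  unfold chk at h
  have e1 : (f k || f (k + 1)) = true := by
    by_contra hcon
    rw [Bool.not_eq_true, Bool.or_eq_false_iff] at hcon
    have h1 := (f_false_iff k).1 hcon.1
    have h2 := (f_false_iff (k + 1)).1 hcon.2
    have h3 := no_bb k
    rw [show k + 1 + 1 = k + 2 by omega] at h2
    omega
  have e2 : (f (k + 1) || f (k + 1 + 1)) = true := by
    by_contra hcon
    rw [Bool.not_eq_true, Bool.or_eq_false_iff] at hcon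
    have h1 := (f_false_iff (k + 1)).1 hcon.1
    have h2 := (f_false_iff (k + 1 + 1)).1 hcon.2
    have h3 := no_bb (k + 1)
    rw [show k + 1 + 1 + 1 = k + 1 + 2 by omega] at h2
    omega
  have e3 : (f k && f (k + 1) && f (k + 1 + 1)) = false := by
    by_contra hcon
    rw [Bool.not_eq_false, Bool.and_eq_true, Bool.and_eq_true] at hcon
    have h1 := (f_iff k).1 hcon.1.1
    have h2 := (f_iff (k + 1)).1 hcon.1.2
    have h3 := (f_iff (k + 1 + 1)).1 hcon.2
    have h4 := no_aaa k
    rw [show k + 1 + 1 + 1 = k + 3 by omega] at h3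
    omega
  rw [e1, e2, e3] at h
  simp only [Bool.not_true, Bool.false_or] at h
  have hw : win U (Q (P^[m] k)) (la + (lb + lc)) =
      O blk m (f k) (par (A k)) (par k) ++ (O blk m (f (k + 1)) (par (A k) ^^ f k) (!par k) ++
        O blk m (f (k + 1 + 1)) ((par (A k) ^^ f k) ^^ f (k + 1)) (par k)) := by
    rw [win_add, a2, ← a1, win_add, b2, ← b1, c2]
    unfold OO
    rw [hstep (k + 1), hstep k, par_succ (k + 1), par_succ k]
    simp
  rw [← hw] at h
  have h' := sufAll_drop good _ _ h (n - Q (P^[m] k)) (by
    change n - Q (P^[m] k) < la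
    omega)
  have hlen : la + (lb + lc) = (n - Q (P^[m] k)) + (la + (lb + lc) - (n - Q (P^[m] k))) := by
    omega
  rw [hlen, win_drop, show Q (P^[m] k) + (n - Q (P^[m] k)) = n by omega] at h'
  exact ⟨_, h'⟩

end windows

/-! ### No long runs in the Fibonacci word -/

section runs

/-- The check of the windows of the Fibonacci word. -/
def goodF (l : List Bool) : Bool :=
  decide (25 ≤ l.length) && [8, 10, 12, 14].all fun p =>
    ((l.take p).count true % 2 == 1) || (l.take (p - 3) != (l.drop p).take (p - 3))

theorem chkF : ∀ x y z t e, chk (fun x _ _ => [x]) goodF 6 x y z t e = true := by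
  decide +kernel

theorem A_win (i L : ℕ) : A (i + L) = A i + (win f i L).count true := by
  induction L generalizing i with
  | zero => simp [win]
  | succ L ih =>
    rw [win, show i + (L + 1) = i + 1 + L by omega, ih, List.count_cons]
    by_cases hf : f i = true
    · rw [(f_iff i).1 hf, hf]
      simp
      omega
    · have hf' : f i = false := by simpa using hf
      rw [(f_false_iff i).1 hf', hf']
      simp

theorem goodF_win (n : ℕ) : ∃ L, goodF (win f n L) = true := by
  refine window (blk := fun x _ _ => [x]) (U := f) (Q := id) ?_ rfl ?_ ?_ goodF 6 chkF n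
  · intro x t e
    simp
  · intro i
    rfl
  · intro i
    rfl

theorem run_eq {p p' i m : ℕ} (h : ∀ j < m, A (i + j + p) = A (i + j) + p') :
    ∀ j < m - 1, f (i + j) = f (i + p + j) := by
  intro j hj
  have h1 := h j (by omega)
  have h2 := h (j + 1) (by omega)
  rw [show i + (j + 1) + p = i + p + j + 1 by omega, show i + (j + 1) = i + j + 1 by omega] at h2
  rw [show i + j + p = i + p + j by omega] at h1
  unfold f
  rw [h1, h2]
  congr 1
  apply propext
  omega

theorem no_run_base {p : ℕ} (hp : p ∈ [8, 10, 12, 14]) {p' i : ℕ} (hp' : p' % 2 = 0)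
    (h : ∀ j < p - 2, A (i + j + p) = A (i + j) + p') : False := by
  obtain ⟨L, hL⟩ := goodF_win i
  unfold goodF at hL
  rw [Bool.and_eq_true, decide_eq_true_eq, win_length, List.all_eq_true] at hL
  obtain ⟨h25, hL⟩ := hL
  have h1 := hL p hp
  have hp8 : 8 ≤ p ∧ p ≤ 14 := by
    simp only [List.mem_cons, List.not_mem_nil, or_false] at hp
    omega
  rw [show L = p + (L - p) by omega, win_take, win_drop,
    show L - p = (p - 3) + (L - p - (p - 3)) by omega, win_take,
    show p + (p - 3 + (L - p - (p - 3))) = (p - 3) + (L - (p - 3)) by omega, win_take] at h1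
  have h2 : (win f i p).count true = p' := by
    have h3 := A_win i p
    have h4 := h 0 (by omega)
    simp only [Nat.add_zero] at h4
    omega
  have h5 : win f i (p - 3) = win f (i + p) (p - 3) :=
    win_congr f _ _ _ (fun j hj => run_eq h j (by omega))
  rw [h2, h5] at h1
  simp at h1
  omega

theorem half_le (i q : ℕ) : A i + q ≤ A (i + 2 * q) := by
  induction q with
  | zero => simp
  | succ q ih =>
    have := no_bb (i + 2 * q)
    rw [show i + 2 * (q + 1) = i + 2 * q + 2 by omega]
    omega

theorem no_run : ∀ p : ℕ, 8 ≤ p → p % 2 = 0 → ∀ p' i : ℕ, p' % 2 = 0 →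
    (∀ j < p - 2, A (i + j + p) = A (i + j) + p') → False := by
  intro p
  induction p using Nat.strong_induction_on with
  | _ p ih =>
    intro h8 hp p' i hp' h
    by_cases h16 : p < 16
    · refine no_run_base (p := p) ?_ hp' h
      simp only [List.mem_cons, List.not_mem_nil, or_false]
      omega
    · have h0 := h 0 (by omega)
      simp only [Nat.add_zero] at h0
      have hlow := half_le i (p / 2)
      rw [show i + 2 * (p / 2) = i + p by omega] at hlow
      have hup : A (i + p) < A i + p := by
        have h1 := no_aaa i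
        have h2 : ∀ q, A (i + 3 + q) ≤ A (i + 3) + q := by
          intro q
          induction q with
          | zero => simp
          | succ q ihq =>
            have := A_step (i + 3 + q)
            rw [show i + 3 + (q + 1) = i + 3 + q + 1 by omega]
            omega
        have h3 := h2 (p - 3)
        rw [show i + 3 + (p - 3) = i + p by omega] at h3
        omega
      refine ih p' (by omega) (by omega) hp' (p - p') (A i) (by omega) ?_
      intro j hj
      have h1 := no_aaa (i + (p - 3))
      rw [show i + (p - 3) + 3 = i + p by omega] at h1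
      have := descent h (k := A i + j) (by omega) (by
        rw [show p - 2 - 1 = p - 3 by omega]
        omega)
      omega

end runs

/-! ### The word `u` -/

section word

/-- The blocks of the word `u`: letters, and marks of the first letters of the blocks. -/
def blk (x t e : Bool) : List (Fin 3 × Bool) :=
  let c : Fin 3 := if e then 1 else 0
  let d : Fin 3 := if e then 0 else 1
  if t then [(d, true), (c, false), (2, false)]
  else if x then [(c, true), (2, false), (d, false), (c, false), (2, false)]
  else [(c, true), (2, false)]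

/-- The beginning of the word: the first `i` blocks. -/
noncomputable def pre : ℕ → List (Fin 3 × Bool)
  | 0 => []
  | i + 1 => pre i ++ OO blk 0 i

/-- The start of the block number `i`. -/
noncomputable def Q (i : ℕ) : ℕ := (pre i).length

/-- The word `u` with the marks. -/
noncomputable def U (n : ℕ) : Fin 3 × Bool := (pre (n + 1)).getD n (0, false)

theorem blk_ne (x t e : Bool) : blk x t e ≠ [] := by
  revert x t e
  decide

theorem blk_len (x t e : Bool) : 2 ≤ (blk x t e).length ∧ (blk x t e).length ≤ 5 := by
  revert x t e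
  decide

theorem OO_zero (i : ℕ) : OO blk 0 i = blk (f i) (par (A i)) (par i) := rfl

theorem Q_zero : Q 0 = 0 := rfl

theorem Q_succ (i : ℕ) : Q (i + 1) = Q i + (OO blk 0 i).length := by
  unfold Q
  rw [pre, List.length_append]

theorem Q_lt (i : ℕ) : Q i + 2 ≤ Q (i + 1) ∧ Q (i + 1) ≤ Q i + 5 := by
  rw [Q_succ, OO_zero]
  have := blk_len (f i) (par (A i)) (par i)
  omega

theorem le_Q (i : ℕ) : i ≤ Q i := by
  induction i with
  | zero => simp
  | succ i ih =>
    have := (Q_lt i).1
    omega

theorem pre_le {a b n : ℕ} (h : a ≤ b) (hn : n < Q a) : (pre b)[n]? = (pre a)[n]? := by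
  induction b, h using Nat.le_induction with
  | base => rfl
  | succ b hb ih =>
    have h1 : Q a ≤ Q b := by
      clear ih
      induction b, hb using Nat.le_induction with
      | base => exact le_rfl
      | succ b _ ih =>
        have := (Q_lt b).1
        omega
    rw [pre, List.getElem?_append_left (by unfold Q at h1 hn; omega), ih]

theorem U_eq {a n : ℕ} (hn : n < Q a) : (pre a)[n]? = some (U n) := by
  have h1 : n < Q (n + 1) := lt_of_lt_of_le (Nat.lt_succ_self n) (le_Q (n + 1))
  have h2 : (pre a)[n]? = (pre (n + 1))[n]? := by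
    rcases le_total a (n + 1) with h | h
    · exact (pre_le h hn).symm
    · exact pre_le h h1
  rw [h2]
  unfold U
  have h3 : n < (pre (n + 1)).length := h1
  rw [List.getD_eq_getElem?_getD, List.getElem?_eq_getElem h3]
  rfl

theorem U_win (i : ℕ) : win U (Q i) (OO blk 0 i).length = OO blk 0 i := by
  apply List.ext_getElem?
  intro j
  by_cases hj : j < (OO blk 0 i).length
  · rw [win_getElem _ _ _ _ hj]
    have h1 : Q i + j < Q (i + 1) := by
      rw [Q_succ]
      omega
    rw [← U_eq h1, pre]
    unfold Q
    rw [List.getElem?_append_right (by omega)]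
    congr 1
    omega
  · rw [List.getElem?_eq_none (by rw [win_length]; omega), List.getElem?_eq_none (by omega)]

/-- The first `r` letters differ from the following `r` letters for all `r` from `1` to `c`. -/
def noSq (l : List (Fin 3)) : ℕ → Bool
  | 0 => true
  | c + 1 => (l.take (c + 1) != (l.drop (c + 1)).take (c + 1)) && noSq l c

/-- The check of the windows of `u`. -/
def goodU (l : List (Fin 3 × Bool)) : Bool :=
  decide (70 ≤ l.length) && noSq (l.map Prod.fst) 35 &&
    match l with
    | a :: b :: c :: d :: e :: _ => (a.1 == 2 || b.1 == 2 || c.1 == 2) &&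
        (d.2 == (c.1 == 2 && !(a.1 == 2 && e.1 != 2)))
    | _ => false

theorem chkU : ∀ x y z t e, chk blk goodU 5 x y z t e = true := by
  decide +kernel

theorem coverU (n : ℕ) : ∃ k, Q k ≤ n ∧ n < Q (k + 1) :=
  cover (blk := blk) blk_ne Q_zero Q_succ U_win 0 n

theorem windowU (n : ℕ) : ∃ L, goodU (win U n L) = true :=
  window (blk := blk) blk_ne Q_zero Q_succ U_win goodU 5 chkU n

theorem block_get {k o : ℕ} (h : Q k + o < Q (k + 1)) :
    (blk (f k) (par (A k)) (par k))[o]? = some (U (Q k + o)) := by
  have h1 := U_win k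
  rw [Q_succ] at h
  rw [← OO_zero, ← h1, win_getElem _ _ _ _ (by omega)]

theorem Q_strict : StrictMono Q := strictMono_nat_of_lt_succ fun n => by
  have := (Q_lt n).1
  omega

theorem blk_mark (x t e : Bool) (o : ℕ) (y : Fin 3 × Bool) (h : (blk x t e)[o]? = some y) :
    y.2 = true ↔ o = 0 := by
  rcases o with _ | _ | _ | _ | _ | o <;> cases x <;> cases t <;> cases e <;>
    simp [blk] at h ⊢ <;> rw [← h]

theorem start_iff (n : ℕ) : (U n).2 = true ↔ ∃ k, Q k = n := by
  obtain ⟨k, h1, h2⟩ := coverU n
  have h3 := block_get (k := k) (o := n - Q k) (by omega)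
  have h4 := blk_mark _ _ _ _ _ h3
  rw [show Q k + (n - Q k) = n by omega] at h4
  rw [h4]
  constructor
  · intro h
    exact ⟨k, by omega⟩
  · rintro ⟨k', rfl⟩
    have h5 : k ≤ k' := Q_strict.le_iff_le.1 h1
    have h6 : k' < k + 1 := Q_strict.lt_iff_lt.1 h2
    have : k = k' := by omega
    subst this
    omega

theorem goodU_unfold {n L : ℕ} (h : goodU (win U n L) = true) :
    70 ≤ L ∧ noSq (win (fun t => (U t).1) n L) 35 = true ∧
      ((U n).1 = 2 ∨ (U (n + 1)).1 = 2 ∨ (U (n + 2)).1 = 2) ∧
      ((U (n + 3)).2 = true ↔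
        (U (n + 2)).1 = 2 ∧ ¬ ((U n).1 = 2 ∧ (U (n + 4)).1 ≠ 2)) := by
  unfold goodU at h
  rw [Bool.and_eq_true, Bool.and_eq_true, decide_eq_true_eq, win_length, win_map] at h
  obtain ⟨⟨h1, h2⟩, h3⟩ := h
  refine ⟨h1, h2, ?_⟩
  obtain ⟨L', rfl⟩ : ∃ L', L = L' + 5 := ⟨L - 5, by omega⟩
  simp only [win] at h3
  rw [show n + 1 + 1 = n + 2 by omega, show n + 2 + 1 = n + 3 by omega,
    show n + 3 + 1 = n + 4 by omega] at h3
  rw [Bool.and_eq_true] at h3
  refine ⟨?_, ?_⟩
  · simpa [or_assoc] using h3.1
  · have h4 := h3.2
    rw [beq_iff_eq] at h4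
    rw [h4]
    simp only [Bool.and_eq_true, beq_iff_eq, Bool.not_eq_true', Bool.and_eq_false_iff,
      bne_eq_false_iff_eq, beq_eq_false_iff_ne, ne_eq, not_and, not_not, and_congr_right_iff]
    intro _
    exact imp_iff_not_or.symm

theorem noSq_iff (l : List (Fin 3)) : ∀ c, noSq l c = true →
    ∀ r, 1 ≤ r → r ≤ c → l.take r ≠ (l.drop r).take r := by
  intro c
  induction c with
  | zero => intro _ r h1 h2; omega
  | succ c ih =>
    intro h r h1 h2
    rw [noSq, Bool.and_eq_true, bne_iff_ne] at h
    by_cases hr : r = c + 1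
    · rw [hr]
      exact h.1
    · exact ih h.2 r h1 (by omega)

theorem two_mem (n : ℕ) : (U n).1 = 2 ∨ (U (n + 1)).1 = 2 ∨ (U (n + 2)).1 = 2 := by
  obtain ⟨L, hL⟩ := windowU n
  exact (goodU_unfold hL).2.2.1

theorem recog (n : ℕ) : (∃ k, Q k = n + 3) ↔
    (U (n + 2)).1 = 2 ∧ ¬ ((U n).1 = 2 ∧ (U (n + 4)).1 ≠ 2) := by
  obtain ⟨L, hL⟩ := windowU n
  rw [← start_iff]
  exact (goodU_unfold hL).2.2.2

theorem no_small (s q : ℕ) (h1 : 1 ≤ q) (h35 : q ≤ 35)
    (h : ∀ j < q, (U (s + j)).1 = (U (s + q + j)).1) : False := by
  obtain ⟨L, hL⟩ := windowU s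
  obtain ⟨h70, hn, -, -⟩ := goodU_unfold hL
  have h2 := noSq_iff _ _ hn q h1 h35
  apply h2
  rw [show L = q + (q + (L - 2 * q)) by omega, win_take, win_drop, win_take]
  exact win_congr _ _ _ _ h

theorem Q_up (i p : ℕ) : Q (i + p) ≤ Q i + 5 * p := by
  induction p with
  | zero => simp
  | succ p ih =>
    have := (Q_lt (i + p)).2
    rw [show i + (p + 1) = i + p + 1 by omega]
    omega

theorem blk_two (x t e x' t' e' : Bool)
    (h0 : ((blk x t e)[0]?).map Prod.fst = ((blk x' t' e')[0]?).map Prod.fst)
    (h1 : ((blk x t e)[1]?).map Prod.fst = ((blk x' t' e')[1]?).map Prod.fst) :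
    t = t' ∧ e = e' := by
  revert x t e x' t' e'
  decide

theorem par_eq {a b : ℕ} (h : par a = par b) : a % 2 = b % 2 := by
  unfold par at h
  rw [decide_eq_decide] at h
  omega

theorem no_large (s q : ℕ) (hq : 36 ≤ q)
    (h : ∀ j < q, (U (s + j)).1 = (U (s + q + j)).1) : False := by
  have hu : ∀ t, s ≤ t → t < s + q → (U t).1 = (U (t + q)).1 := by
    intro t h1 h2
    have := h (t - s) (by omega)
    rwa [show s + (t - s) = t by omega, show s + q + (t - s) = t + q by omega] at this
  have hrec : ∀ t, s + 3 ≤ t → t < s + q - 1 → ((∃ k, Q k = t) ↔ ∃ k, Q k = t + q) := by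
    intro t h1 h2
    obtain ⟨n, rfl⟩ : ∃ n, t = n + 3 := ⟨t - 3, by omega⟩
    rw [show n + 3 + q = n + q + 3 by omega, recog, recog, hu n (by omega) (by omega),
      hu (n + 2) (by omega) (by omega), hu (n + 4) (by omega) (by omega),
      show n + 2 + q = n + q + 2 by omega, show n + 4 + q = n + q + 4 by omega]
  obtain ⟨k, hk1, hk2⟩ := coverU (s + 2)
  have hk3 := Q_lt k
  obtain ⟨i, hi⟩ : ∃ i, i = k + 1 := ⟨_, rfl⟩
  rw [← hi] at hk2 hk3
  obtain ⟨i', hi'⟩ := (hrec (Q i) (by omega) (by omega)).1 ⟨i, rfl⟩
  have hii : i < i' := Q_strict.lt_iff_lt.1 (by omega)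
  obtain ⟨p, rfl⟩ : ∃ p, i' = i + p := ⟨i' - i, by omega⟩
  have hp8 : 8 ≤ p := by
    have := Q_up i p
    omega
  have hstep : ∀ j, Q (i + j) < s + q - 1 → Q (i + p + j) = Q (i + j) + q := by
    intro j
    induction j with
    | zero => intro _; exact hi'
    | succ j ih =>
      intro hj
      have g1 := (Q_lt (i + j)).1
      have g2 := (Q_lt (i + p + j)).1
      rw [← add_assoc] at hj ⊢
      rw [← add_assoc]
      have g3 := ih (by omega)
      have g4 : Q i ≤ Q (i + j) := Q_strict.monotone (by omega)
      obtain ⟨l, hl⟩ := (hrec (Q (i + j + 1)) (by omega) hj).1 ⟨_, rfl⟩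
      rcases lt_trichotomy (Q (i + p + j + 1)) (Q (i + j + 1) + q) with hlt | heq | hgt
      · exfalso
        obtain ⟨l', hl'⟩ := (hrec (Q (i + p + j + 1) - q) (by omega) (by omega)).2
          ⟨_, (by omega : Q (i + p + j + 1) = Q (i + p + j + 1) - q + q)⟩
        have t1 : i + j < l' := Q_strict.lt_iff_lt.1 (by omega)
        have t2 : l' < i + j + 1 := Q_strict.lt_iff_lt.1 (by omega)
        omega
      · exact heq
      · exfalso
        have t1 : i + p + j < l := Q_strict.lt_iff_lt.1 (by omega)
        have t2 : l < i + p + j + 1 := Q_strict.lt_iff_lt.1 (by omega)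
        omega
  have hend : Q (i + (p - 3)) < s + q - 1 := by
    by_contra hcon
    have g1 := (Q_lt (i + (p - 3))).1
    have g2 := (Q_lt (i + (p - 3) + 1)).1
    have g3 := (Q_lt (i + (p - 1))).1
    rw [show i + (p - 3) + 1 + 1 = i + (p - 1) by omega] at g2
    rw [show i + (p - 1) + 1 = i + p by omega] at g3
    obtain ⟨l', hl'⟩ := (hrec (Q (i + (p - 1)) - q) (by omega) (by omega)).2
      ⟨_, (by omega : Q (i + (p - 1)) = Q (i + (p - 1)) - q + q)⟩
    have t1 : k < l' := Q_strict.lt_iff_lt.1 (by omega)
    have t2 : l' < i := Q_strict.lt_iff_lt.1 (by omega)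
    omega
  have hQj : ∀ j < p - 2, Q (i + j) < s + q - 1 := by
    intro j hj
    have : Q (i + j) ≤ Q (i + (p - 3)) := Q_strict.monotone (by omega)
    omega
  have hpar : ∀ j < p - 2, par (A (i + j)) = par (A (i + p + j)) ∧
      par (i + j) = par (i + p + j) := by
    intro j hj
    have g0 := hQj j hj
    have g1 := hstep j g0
    have g2 := (Q_lt (i + j)).1
    have g3 := (Q_lt (i + p + j)).1
    have g4 : Q i ≤ Q (i + j) := Q_strict.monotone (by omega)
    apply blk_two (f (i + j)) _ _ (f (i + p + j))
    · rw [block_get (k := i + j) (o := 0) (by omega),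
        block_get (k := i + p + j) (o := 0) (by omega), g1]
      simp only [Option.map_some, Nat.add_zero]
      rw [hu _ (by omega) (by omega)]
    · rw [block_get (k := i + j) (o := 1) (by omega),
        block_get (k := i + p + j) (o := 1) (by omega), g1]
      simp only [Option.map_some]
      rw [hu _ (by omega) (by omega), show Q (i + j) + q + 1 = Q (i + j) + 1 + q by omega]
  have h0 := hpar 0 (by omega)
  simp only [Nat.add_zero] at h0
  have h1 := par_eq h0.1
  have h2 := par_eq h0.2
  have hmono : A i ≤ A (i + p) := A_mono (by omega)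
  refine no_run p hp8 (by omega) (A (i + p) - A i) i (by omega) ?_
  intro j
  induction j with
  | zero => intro _; simp only [Nat.add_zero]; omega
  | succ j ih =>
    intro hj
    have g1 := ih (by omega)
    have g2 := A_step (i + j)
    have g3 := A_step (i + j + p)
    have g4 := par_eq (hpar j (by omega)).1
    have g5 := par_eq (hpar (j + 1) hj).1
    rw [show i + p + j = i + j + p by omega] at g4
    rw [show i + p + (j + 1) = i + j + p + 1 by omega, show i + (j + 1) = i + j + 1 by omega] at g5
    rw [show i + (j + 1) + p = i + j + p + 1 by omega, show i + (j + 1) = i + j + 1 by omega]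
    omega

theorem squarefree (s q : ℕ) (hq : 1 ≤ q)
    (h : ∀ j < q, (U (s + j)).1 = (U (s + q + j)).1) : False := by
  by_cases h35 : q ≤ 35
  · exact no_small s q hq h35 h
  · exact no_large s q (by omega) h

end word

/-- The first player has a strategy in the biased game such that no infinite play in which he
follows the strategy contains a square of a block of at least two symbols. -/
theorem result : ∃ σ : List (Fin 3) → Fin 3, ∀ s : ℕ → Fin 3, Legal s → Follows σ s →
    ¬ HasSquare s := by
  refine ⟨fun l => (U (l.length / 2)).1, ?_⟩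
  intro s hleg hfol
  have hs : ∀ n, s (2 * n) = (U n).1 := by
    intro n
    rw [hfol n]
    simp
  rintro ⟨k, r, hr, h⟩
  rcases Nat.even_or_odd' r with ⟨r', rfl | rfl⟩
  · refine squarefree ((k + 1) / 2) r' (by omega) ?_
    intro j hj
    have h1 := h (2 * ((k + 1) / 2 + j) - k) (by omega)
    rw [← hs, ← hs]
    rwa [show k + (2 * ((k + 1) / 2 + j) - k) = 2 * ((k + 1) / 2 + j) by omega,
      show k + 2 * r' + (2 * ((k + 1) / 2 + j) - k) = 2 * ((k + 1) / 2 + r' + j) by omega] at h1
  · have hne : ∀ t, k ≤ 2 * t → 2 * t < k + 2 * (2 * r' + 1) → s (2 * t) ≠ 2 := by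
      intro t h1 h2
      by_cases h3 : 2 * t < k + (2 * r' + 1)
      · have h4 := h (2 * t - k) (by omega)
        rw [show k + (2 * t - k) = 2 * t by omega,
          show k + (2 * r' + 1) + (2 * t - k) = 2 * (t + r') + 1 by omega] at h4
        rw [h4]
        exact hleg _
      · have h4 := h (2 * t - k - (2 * r' + 1)) (by omega)
        rw [show k + (2 * t - k - (2 * r' + 1)) = 2 * (t - r' - 1) + 1 by omega,
          show k + (2 * r' + 1) + (2 * t - k - (2 * r' + 1)) = 2 * t by omega] at h4
        rw [← h4]
        exact hleg _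
    have h2 := two_mem ((k + 1) / 2)
    rw [← hs, ← hs, ← hs] at h2
    rcases h2 with h2 | h2 | h2
    · exact hne _ (by omega) (by omega) h2
    · exact hne _ (by omega) (by omega) h2
    · exact hne _ (by omega) (by omega) h2

end Pool.Agent.Results.MP_fa571f_co.FirstPlayerWins
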